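import Mathlib

namespace Pool.Agent.Results.MP_058057_co.Counter

open Finset

/-- Number of partitions of `n` into distinct parts, none divisible by four
(a partition into distinct parts is a finite set of positive integers with sum `n`). -/
def Q0 (n : ℕ) : ℕ :=
  ((Icc 1 n).powerset.filter (fun s => (∑ i ∈ s, i) = n ∧ ∀ i ∈ s, ¬ 4 ∣ i)).card

/-- Extension by zero to negative integers. -/
def Q0z (m : ℤ) : ℤ := if m < 0 then 0 else Q0 m.toNat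

/-- `ξ_0 = 1`, `ξ_{4m²} = 2(-1)^m` for `m ≥ 1`, and `0` otherwise. -/
def xi (n : ℕ) : ℤ :=
  if n = 0 then 1 else ∑ m ∈ Icc 1 n, if n = 4 * m ^ 2 then 2 * (-1) ^ m else 0

def S (k n : ℕ) : ℤ :=
  ∑ j ∈ range (2 * k), (-1) ^ (j * (j + 1) / 2) * Q0z ((n : ℤ) - (j * (j + 1) / 2 : ℕ))

theorem result :
    (1 * (2 * 1 + 1) ≤ 7 ∧ (-1) ^ (1 - 1) * (S 1 7 - xi 7) = 0) ∧
    ¬ ∀ n k : ℕ, 1 ≤ k → 0 ≤ (-1) ^ (k - 1) * (S k n - xi n) ∧
      (0 < (-1) ^ (k - 1) * (S k n - xi n) ↔ k * (2 * k + 1) ≤ n) := by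
  have h : (-1) ^ (1 - 1) * (S 1 7 - xi 7) = 0 := by decide +kernel
  refine ⟨⟨by norm_num, h⟩, fun H => ?_⟩
  have := (H 7 1 le_rfl).2.2 (by norm_num)
  rw [h] at this
  exact lt_irrefl _ this

end Pool.Agent.Results.MP_058057_co.Counter
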